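import Mathlib

/-!
# NoStar: definitions of the statement
-/

open MeasureTheory ProbabilityTheory Set Filter

open scoped ENNReal Topology

namespace Pool.H23.MV.NoStar

/-- Birth times. Individuals are finite words over the naturals, the root is the empty word and the
`(i+1)`-st child of `u` is `i :: u` (`i = 0, 1, 2, ...`). The number `x u j` is the waiting time
between the births of the `j`-th and the `(j+1)`-st child of `u`. -/
noncomputable def birth (x : List ℕ → ℕ → ℝ≥0∞) : List ℕ → ℝ≥0∞
  | [] => 0
  | (i :: u) => birth x u + ∑ j ∈ Finset.range (i + 1), x u j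

/-- The explosion time: the infimum of the finite times `t` at which infinitely many individuals
have been born (`∞` if there is no such time). -/
noncomputable def explosionTime (x : List ℕ → ℕ → ℝ≥0∞) : ℝ≥0∞ :=
  sInf {t : ℝ≥0∞ | t ≠ ∞ ∧ {u : List ℕ | birth x u ≤ t}.Infinite}

/-- The tree of all individuals born before explosion. -/
def tree (x : List ℕ → ℕ → ℝ≥0∞) : Set (List ℕ) := {u | birth x u < explosionTime x}

/-- `u` has infinitely many children in the tree of individuals born before explosion. -/
def HasInfiniteDegree (x : List ℕ → ℕ → ℝ≥0∞) (u : List ℕ) : Prop :=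
  {i : ℕ | i :: u ∈ tree x}.Infinite

/-- The rows `X u`, `u` an individual, are independent copies of a random sequence with law `μ`. -/
def IsIIDFamily (μ : Measure (ℕ → ℝ≥0∞)) {Ω : Type} [MeasurableSpace Ω] (P : Measure Ω)
    (X : List ℕ → Ω → ℕ → ℝ≥0∞) : Prop :=
  iIndepFun X P ∧ ∀ u, Measurable (X u) ∧ P.map (X u) = μ

/-- The process is explosive: survival has positive probability, and almost surely on survival the
explosion time is finite. -/
def Explosive {Ω : Type} [MeasurableSpace Ω] (P : Measure Ω)
    (X : List ℕ → Ω → ℕ → ℝ≥0∞) : Prop :=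
  0 < P {ω | (tree fun u => X u ω).Infinite} ∧
    ∀ᵐ ω ∂P, (tree fun u => X u ω).Infinite → explosionTime (fun u => X u ω) < ∞

end Pool.H23.MV.NoStar
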