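import Mathlib
import Pool.Agent.H23.MV.NoStarDefs

/-!
# NoStar: the proof
-/

open MeasureTheory ProbabilityTheory Set Filter

open scoped ENNReal Topology

namespace Pool.H23.MV.NoStar

section deterministic

variable {x : List ℕ → ℕ → ℝ≥0∞}

lemma birth_cons (i : ℕ) (u : List ℕ) :
    birth x (i :: u) = birth x u + ∑ j ∈ Finset.range (i + 1), x u j := rfl

lemma birth_cons_le (i : ℕ) (u : List ℕ) :
    birth x (i :: u) ≤ birth x u + ∑' k, x u k := by
  rw [birth_cons]
  gcongr
  exact ENNReal.sum_le_tsum _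

lemma explosionTime_le (v : List ℕ) (hv : birth x v + ∑' k, x v k ≠ ∞) :
    explosionTime x ≤ birth x v + ∑' k, x v k := by
  refine sInf_le ⟨hv, ?_⟩
  refine Set.infinite_of_injective_forall_mem (f := fun k : ℕ => k :: v) ?_ ?_
  · intro a b h
    simpa using h
  · intro k
    exact birth_cons_le k v

lemma tendsto_birth (u : List ℕ) :
    Tendsto (fun i => birth x (i :: u)) atTop (𝓝 (birth x u + ∑' k, x u k)) := by
  have h1 : Tendsto (fun i => ∑ j ∈ Finset.range (i + 1), x u j) atTop (𝓝 (∑' k, x u k)) :=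
    (ENNReal.tendsto_nat_tsum (x u)).comp (tendsto_add_atTop_nat 1)
  exact h1.const_add _

lemma not_hasInfiniteDegree (u : List ℕ)
    (h : explosionTime x < birth x u + ∑' k, x u k) : ¬ HasInfiniteDegree x u := by
  have h1 := (tendsto_birth (x := x) u).eventually (lt_mem_nhds h)
  obtain ⟨N, hN⟩ := eventually_atTop.1 h1
  intro hinf
  refine hinf ((Set.finite_Iio N).subset ?_)
  intro i hi
  by_contra hcon
  have h2 := hN i (not_lt.1 hcon)
  exact absurd (lt_trans h2 hi) (lt_irrefl _)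

lemma birth_lt_birth_cons (hpos : ∀ u j, 0 < x u j) (i : ℕ) (u : List ℕ) (hu : birth x u ≠ ∞) :
    birth x u < birth x (i :: u) := by
  rw [birth_cons]
  refine ENNReal.lt_add_right hu ?_
  rw [Finset.sum_range_succ']
  simp only [ne_eq, add_eq_zero, not_and]
  intro _
  exact (hpos u 0).ne'

lemma birth_cons_strictMono (hpos : ∀ u j, 0 < x u j) {i j : ℕ} (hij : i < j) (u : List ℕ)
    (hu : birth x (i :: u) ≠ ∞) : birth x (i :: u) < birth x (j :: u) := by
  rw [birth_cons j, birth_cons i] at *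
  have : ∑ k ∈ Finset.range (i + 1), x u k + x u (i + 1) ≤ ∑ k ∈ Finset.range (j + 1), x u k := by
    rw [← Finset.sum_range_succ]
    exact Finset.sum_le_sum_of_subset (Finset.range_mono (by omega))
  calc birth x u + ∑ k ∈ Finset.range (i + 1), x u k
      < birth x u + ∑ k ∈ Finset.range (i + 1), x u k + x u (i + 1) :=
        ENNReal.lt_add_right hu (hpos u (i + 1)).ne'
    _ ≤ _ := by rw [add_assoc]; gcongr

lemma birth_cons_mono {i j : ℕ} (hij : i ≤ j) (u : List ℕ) :
    birth x (i :: u) ≤ birth x (j :: u) := by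
  rw [birth_cons j, birth_cons i]
  gcongr

/-- If all waiting times are positive and the explosion time is finite, then infinitely many
individuals are born before explosion. -/
lemma tree_infinite (hpos : ∀ u j, 0 < x u j) (hτ : explosionTime x < ∞) :
    (tree x).Infinite := by
  intro hfin
  set τ := explosionTime x with hτdef
  -- the individuals born at or before `τ`
  have hA : {u : List ℕ | birth x u ≤ τ}.Finite := by
    have hsub : {u : List ℕ | birth x u ≤ τ} ⊆
        tree x ∪ ({[]} ∪ ⋃ v ∈ tree x, {u | ∃ i : ℕ, u = i :: v ∧ birth x u = τ}) := by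
      intro u hu
      rcases lt_or_eq_of_le (show birth x u ≤ τ from hu) with h | h
      · exact Or.inl h
      · right
        cases u with
        | nil => left; rfl
        | cons i v =>
          right
          have hv : birth x v < τ := by
            rw [← h]
            refine birth_lt_birth_cons hpos i v ?_
            have : birth x v ≤ birth x (i :: v) := by rw [birth_cons]; exact le_self_add
            exact (lt_of_le_of_lt (this.trans h.le) hτ).ne
          simp only [Set.mem_iUnion]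
          exact ⟨v, hv, i, rfl, h⟩
    refine Set.Finite.subset ?_ hsub
    refine hfin.union ((Set.finite_singleton _).union (hfin.biUnion ?_))
    intro v _
    refine Set.Subsingleton.finite ?_
    rintro a ⟨i, rfl, hi⟩ b ⟨j, rfl, hj⟩
    rcases lt_trichotomy i j with hij | hij | hij
    · have := birth_cons_strictMono hpos hij v (by rw [hi]; exact hτ.ne)
      rw [hi, hj] at this
      exact absurd this (lt_irrefl _)
    · rw [hij]
    · have := birth_cons_strictMono hpos hij v (by rw [hj]; exact hτ.ne)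
      rw [hi, hj] at this
      exact absurd this (lt_irrefl _)
  -- a time `δ > τ` such that nobody is born in `(τ, δ)`
  have hkey : ∃ δ : ℝ≥0∞, τ < δ ∧ ∀ u : List ℕ, birth x u < δ → birth x u ≤ τ := by
    -- for each `v` the next birth time after `τ`
    have hv : ∀ v : List ℕ, ∃ δ : ℝ≥0∞, τ < δ ∧ ∀ i : ℕ, birth x (i :: v) < δ →
        birth x (i :: v) ≤ τ := by
      intro v
      by_cases hex : ∃ i : ℕ, τ < birth x (i :: v)
      · classical
        refine ⟨birth x (Nat.find hex :: v), Nat.find_spec hex, ?_⟩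
        intro i hi
        by_contra hcon
        have h1 : Nat.find hex ≤ i := Nat.find_min' hex (not_le.1 hcon)
        exact absurd (lt_of_lt_of_le hi (birth_cons_mono h1 v)) (lt_irrefl _)
      · push Not at hex
        exact ⟨∞, hτ, fun i _ => hex i⟩
    choose δ hδ1 hδ2 using hv
    refine ⟨hA.toFinset.inf δ, ?_, ?_⟩
    · rw [Finset.lt_inf_iff hτ]
      intro v _
      exact hδ1 v
    · intro u
      induction u with
      | nil => intro _; simp [birth]
      | cons i v ih =>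
        intro h
        have hvle : birth x v ≤ birth x (i :: v) := by rw [birth_cons]; exact le_self_add
        have hv1 : birth x v ≤ τ := ih (lt_of_le_of_lt hvle h)
        refine hδ2 v i (lt_of_lt_of_le h ?_)
        exact Finset.inf_le (by simpa using hv1)
  obtain ⟨δ, hδ1, hδ2⟩ := hkey
  obtain ⟨t, ⟨_, ht2⟩, ht3⟩ := sInf_lt_iff.1 (show sInf _ < δ from hδ1)
  exact ht2 (hA.subset fun u hu => hδ2 u (lt_of_le_of_lt hu ht3))

end deterministic

section law

/-- Every natural number is hit at most twice by `g`, in summed form. -/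
def TwoToOne (g : ℕ → ℕ) : Prop := ∀ φ : ℕ → ℝ≥0∞, ∑' j, φ (g j) ≤ 2 * ∑' k, φ k

lemma one_le_prod_add_sum (s : Finset ℕ) (q ε : ℕ → ℝ≥0∞) (hq : ∀ j, q j ≤ 1)
    (h : ∀ j, 1 ≤ q j + ε j) : 1 ≤ ∏ j ∈ s, q j + ∑ j ∈ s, ε j := by
  classical
  induction s using Finset.induction_on with
  | empty => simp
  | insert a s ha ih =>
    rw [Finset.prod_insert ha, Finset.sum_insert ha]
    have hle : ∏ j ∈ s, q j ≤ 1 := Finset.prod_le_one' fun j _ => hq j
    calc (1 : ℝ≥0∞) ≤ ∏ j ∈ s, q j + ∑ j ∈ s, ε j := ih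
      _ = 1 * ∏ j ∈ s, q j + ∑ j ∈ s, ε j := by rw [one_mul]
      _ ≤ (q a + ε a) * ∏ j ∈ s, q j + ∑ j ∈ s, ε j := by gcongr; exact h a
      _ = q a * ∏ j ∈ s, q j + (ε a * ∏ j ∈ s, q j + ∑ j ∈ s, ε j) := by ring
      _ ≤ q a * ∏ j ∈ s, q j + (ε a * 1 + ∑ j ∈ s, ε j) := by gcongr
      _ = _ := by rw [mul_one]

variable (ρ : ℕ → Measure ℝ≥0∞) [∀ k, IsProbabilityMeasure (ρ k)]

/-- A lower bound, uniform in `g`, for the probability that the sum of independent variables
with laws `ρ (g j)` is small. -/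
lemma lower (hpos : ∀ k (δ : ℝ≥0∞), 0 < δ → 0 < ρ k (Iic δ))
    (htail : ∀ k, ρ k (Ioi (2⁻¹ ^ k)) ≤ 2⁻¹ ^ (k + 3)) (γ : ℝ≥0∞) (hγ : 0 < γ) :
    ∃ r : ℝ≥0∞, 0 < r ∧ ∀ g : ℕ → ℕ, TwoToOne g →
      r ≤ Measure.infinitePi (fun j => ρ (g j)) {x : ℕ → ℝ≥0∞ | ∑' j, x j < γ} := by
  classical
  obtain ⟨c, hc0, hcγ⟩ := ENNReal.lt_iff_exists_nnreal_btwn.1 hγ
  have hc0' : (0 : ℝ≥0∞) < (c / 4 : NNReal) := by
    rw [ENNReal.coe_pos] at hc0 ⊢
    positivity
  -- the finite set of levels which are treated separately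
  have htend := ENNReal.tendsto_tsum_compl_atTop_zero (f := fun k : ℕ => (2⁻¹ : ℝ≥0∞) ^ k)
    (by rw [ENNReal.tsum_geometric_two]; simp)
  obtain ⟨s, hs⟩ := (htend.eventually (gt_mem_nhds hc0')).exists
  set δ : NNReal := c / (4 * (s.card + 1)) with hδ
  have hδ0 : (0 : ℝ≥0∞) < δ := by
    rw [ENNReal.coe_pos] at hc0 ⊢
    positivity
  set q : ℝ≥0∞ := ∏ k ∈ s, ρ k (Iic (δ : ℝ≥0∞)) with hq
  have hq0 : 0 < q := by
    rw [hq, pos_iff_ne_zero, Finset.prod_ne_zero_iff]
    intro k _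
    exact (hpos k δ hδ0).ne'
  have hqle : ∀ k ∈ s, q ≤ ρ k (Iic (δ : ℝ≥0∞)) := by
    intro k hk
    rw [hq, ← Finset.mul_prod_erase _ _ hk]
    calc ρ k (Iic (δ : ℝ≥0∞)) * ∏ x ∈ s.erase k, ρ x (Iic (δ : ℝ≥0∞))
        ≤ ρ k (Iic (δ : ℝ≥0∞)) * 1 := by
          gcongr
          exact Finset.prod_le_one' fun j _ => prob_le_one
      _ = _ := mul_one _
  have hq1 : q ≤ 1 := Finset.prod_le_one' fun j _ => prob_le_one
  refine ⟨q ^ (2 * s.card) * 2⁻¹, ENNReal.mul_pos (pow_ne_zero _ hq0.ne') (by simp), ?_⟩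
  intro g hg
  set φ : ℕ → ℝ≥0∞ := fun k => if k ∈ s then (δ : ℝ≥0∞) else 2⁻¹ ^ k with hφ
  set t : ℕ → Set ℝ≥0∞ := fun j => Iic (φ (g j)) with ht
  -- the sum of the bounds
  have hsum : ∑' j, φ (g j) < γ := by
    have h1 : ∑' k, φ k ≤ s.card * δ + ∑' b : {x // x ∉ s}, (2⁻¹ : ℝ≥0∞) ^ (b : ℕ) := by
      have h2 : ∑' b : {x // x ∉ s}, (2⁻¹ : ℝ≥0∞) ^ (b : ℕ) =
          ∑' k, ({x | x ∉ s} : Set ℕ).indicator (fun k => (2⁻¹ : ℝ≥0∞) ^ k) k :=
        tsum_subtype (s := {x : ℕ | x ∉ s}) (f := fun k => (2⁻¹ : ℝ≥0∞) ^ k)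
      have h3 : (s.card : ℝ≥0∞) * δ = ∑' k, (if k ∈ s then (δ : ℝ≥0∞) else 0) := by
        rw [tsum_eq_sum (s := s) (by intro b hb; simp [hb])]
        rw [Finset.sum_congr rfl (fun k hk => if_pos hk)]
        simp
      rw [h2, h3, ← ENNReal.tsum_add]
      refine ENNReal.tsum_le_tsum fun k => ?_
      simp only [hφ, Set.indicator, Set.mem_ofPred_eq]
      by_cases hk : k ∈ s <;> simp [hk]
    have h4 : (s.card : ℝ≥0∞) * δ ≤ (c / 4 : NNReal) := by
      rw [← ENNReal.coe_natCast, ← ENNReal.coe_mul, ENNReal.coe_le_coe, hδ]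
      have : (s.card : NNReal) * (c / (4 * (s.card + 1))) = (c / 4) * (s.card / (s.card + 1)) := by
        field_simp
      rw [this]
      have h5 : (s.card : NNReal) / (s.card + 1) ≤ 1 := by
        rw [div_le_one (by positivity)]
        simp
      calc (c / 4) * ((s.card : NNReal) / (s.card + 1)) ≤ (c / 4) * 1 := by gcongr
        _ = c / 4 := mul_one _
    calc ∑' j, φ (g j) ≤ 2 * ∑' k, φ k := hg φ
      _ ≤ 2 * (s.card * δ + ∑' b : {x // x ∉ s}, (2⁻¹ : ℝ≥0∞) ^ (b : ℕ)) := by gcongr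
      _ ≤ 2 * ((c / 4 : NNReal) + (c / 4 : NNReal)) := by gcongr
      _ = (c : ℝ≥0∞) := by
          rw [← ENNReal.coe_add, ← ENNReal.coe_ofNat, ← ENNReal.coe_mul, ENNReal.coe_inj]
          field_simp
          ring
      _ < γ := hcγ
  -- the number of indices with level in `s`
  have hcard : ∀ N : ℕ, ((Finset.range N).filter fun j => g j ∈ s).card ≤ 2 * s.card := by
    intro N
    have h1 := hg (fun k => if k ∈ s then 1 else 0)
    have h2 : ∑' k, (if k ∈ s then (1 : ℝ≥0∞) else 0) = s.card := by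
      rw [tsum_eq_sum (s := s) (by intro b hb; simp [hb])]
      simp
    have h3 : (((Finset.range N).filter fun j => g j ∈ s).card : ℝ≥0∞) ≤ ((2 * s.card : ℕ) : ℝ≥0∞) := by
      calc (((Finset.range N).filter fun j => g j ∈ s).card : ℝ≥0∞)
          = ∑ j ∈ Finset.range N, (if g j ∈ s then (1 : ℝ≥0∞) else 0) := by
            simp
        _ ≤ ∑' j, (if g j ∈ s then (1 : ℝ≥0∞) else 0) := ENNReal.sum_le_tsum _
        _ ≤ 2 * s.card := by rw [← h2]; exact h1
        _ = _ := by push_cast; ring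
    exact_mod_cast h3
  -- finite boxes
  have hbox : ∀ N : ℕ, q ^ (2 * s.card) * 2⁻¹ ≤
      Measure.infinitePi (fun j => ρ (g j)) (Set.pi (Finset.range N) t) := by
    intro N
    rw [Measure.infinitePi_pi _ (fun i _ => measurableSet_Iic)]
    rw [← Finset.prod_filter_mul_prod_filter_not (Finset.range N) (fun j => g j ∈ s)]
    gcongr
    · calc q ^ (2 * s.card) ≤ q ^ ((Finset.range N).filter fun j => g j ∈ s).card :=
            pow_le_pow_right_of_le_one' hq1 (hcard N)
        _ = ∏ j ∈ (Finset.range N).filter fun j => g j ∈ s, q := by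
            rw [Finset.prod_const]
        _ ≤ _ := by
            refine Finset.prod_le_prod' fun j hj => ?_
            have hj2 : g j ∈ s := (Finset.mem_filter.1 hj).2
            simp only [hφ, hj2, if_true]
            exact hqle _ hj2
    · set F := (Finset.range N).filter fun j => ¬ g j ∈ s with hF
      have h1 := one_le_prod_add_sum F
        (fun j => ρ (g j) (Iic ((2⁻¹ : ℝ≥0∞) ^ (g j)))) (fun j => (2⁻¹ : ℝ≥0∞) ^ (g j + 3))
        (fun j => prob_le_one) (fun j => by
          calc (1 : ℝ≥0∞) = ρ (g j) (Iic ((2⁻¹ : ℝ≥0∞) ^ (g j))) +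
                ρ (g j) (Iic ((2⁻¹ : ℝ≥0∞) ^ (g j)))ᶜ := by
                rw [measure_add_measure_compl measurableSet_Iic, measure_univ]
            _ ≤ _ := by
                rw [compl_Iic]
                gcongr
                exact htail _)
      have h2 : ∑ j ∈ F, (2⁻¹ : ℝ≥0∞) ^ (g j + 3) ≤ 2⁻¹ := by
        calc ∑ j ∈ F, (2⁻¹ : ℝ≥0∞) ^ (g j + 3) ≤ ∑' j, (2⁻¹ : ℝ≥0∞) ^ (g j + 3) :=
              ENNReal.sum_le_tsum _
          _ ≤ 2 * ∑' k, (2⁻¹ : ℝ≥0∞) ^ (k + 3) := hg (fun k => 2⁻¹ ^ (k + 3))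
          _ = 2 * ((2⁻¹ : ℝ≥0∞) ^ 3 * 2) := by
              simp_rw [pow_add]
              rw [ENNReal.tsum_mul_right, ENNReal.tsum_geometric_two]
              ring
          _ = 2⁻¹ := by
              have h22 : (2 : ℝ≥0∞) * 2⁻¹ = 1 := ENNReal.mul_inv_cancel (by norm_num) (by norm_num)
              calc (2 : ℝ≥0∞) * ((2⁻¹ : ℝ≥0∞) ^ 3 * 2) = (2 * 2⁻¹) * (2 * 2⁻¹) * 2⁻¹ := by ring
                _ = 2⁻¹ := by rw [h22]; simp
      have h3 : ∏ j ∈ F, ρ (g j) (t j) = ∏ j ∈ F, ρ (g j) (Iic ((2⁻¹ : ℝ≥0∞) ^ (g j))) := by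
        refine Finset.prod_congr rfl fun j hj => ?_
        have hj2 : ¬ g j ∈ s := (Finset.mem_filter.1 hj).2
        simp only [ht, hφ, hj2, if_false]
      rw [h3]
      have h4 : (1 : ℝ≥0∞) ≤ ∏ j ∈ F, ρ (g j) (Iic ((2⁻¹ : ℝ≥0∞) ^ (g j))) + 2⁻¹ :=
        h1.trans (by gcongr)
      have h5 : (2⁻¹ : ℝ≥0∞) + 2⁻¹ = 1 := ENNReal.inv_two_add_inv_two
      rw [← h5] at h4
      exact (ENNReal.add_le_add_iff_right (by simp)).1 h4
  -- the infinite box
  have hfull : q ^ (2 * s.card) * 2⁻¹ ≤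
      Measure.infinitePi (fun j => ρ (g j)) (⋂ N : ℕ, Set.pi (Finset.range N : Set ℕ) t) := by
    rw [Antitone.measure_iInter]
    · exact le_iInf hbox
    · intro a b hab
      exact Set.pi_mono' (fun _ _ => le_rfl) (by simpa using hab)
    · intro N
      exact (MeasurableSet.pi (Finset.countable_toSet _)
        (fun i _ => measurableSet_Iic)).nullMeasurableSet
    · exact ⟨0, measure_ne_top _ _⟩
  refine hfull.trans (measure_mono ?_)
  intro x hx
  have hx2 : ∀ j, x j ≤ φ (g j) := by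
    intro j
    have := Set.mem_iInter.1 hx (j + 1)
    exact this j (by simp)
  exact lt_of_le_of_lt (ENNReal.tsum_le_tsum hx2) hsum

/-- An index function putting level `n` at a position at least `M n`, for all `n`. -/
lemma exists_index (M : ℕ → ℕ) : ∃ (g : ℕ → ℕ) (m : ℕ → ℕ), TwoToOne g ∧
    (∀ n, M n ≤ m n) ∧ ∀ n, g (m n) = n := by
  classical
  set m : ℕ → ℕ := fun n => ∑ k ∈ Finset.range (n + 1), (M k + 1) with hm
  have hmono : StrictMono m := by
    refine strictMono_nat_of_lt_succ fun n => ?_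
    simp only [hm]
    rw [Finset.sum_range_succ _ (n + 1)]
    omega
  have hM : ∀ n, M n ≤ m n := by
    intro n
    simp only [hm]
    rw [Finset.sum_range_succ]
    omega
  set g : ℕ → ℕ := fun j => if h : ∃ n, m n = j then h.choose else j with hg
  have hgm : ∀ n, g (m n) = n := by
    intro n
    have h : ∃ k, m k = m n := ⟨n, rfl⟩
    simp only [hg, h, dif_pos]
    exact hmono.injective h.choose_spec
  refine ⟨g, m, ?_, hM, hgm⟩
  intro φ
  have hpt : ∀ j, φ (g j) ≤ φ j + ∑' n, (if j = m n then φ n else 0) := by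
    intro j
    by_cases h : ∃ n, m n = j
    · obtain ⟨n, rfl⟩ := h
      rw [hgm]
      refine le_add_left ?_
      calc φ n = (if m n = m n then φ n else 0) := by simp
        _ ≤ _ := ENNReal.le_tsum (f := fun k => if m n = m k then φ k else 0) n
    · have : g j = j := by simp only [hg, h, dif_neg, not_false_eq_true]
      rw [this]
      exact le_self_add
  calc ∑' j, φ (g j) ≤ ∑' j, (φ j + ∑' n, (if j = m n then φ n else 0)) :=
        ENNReal.tsum_le_tsum hpt
    _ = ∑' j, φ j + ∑' j, ∑' n, (if j = m n then φ n else 0) := ENNReal.tsum_add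
    _ = ∑' j, φ j + ∑' n, ∑' j, (if j = m n then φ n else 0) := by rw [ENNReal.tsum_comm]
    _ = ∑' j, φ j + ∑' n, φ n := by simp_rw [tsum_ite_eq]
    _ = 2 * ∑' k, φ k := by rw [two_mul]

/-- Small positive times which are rarely exceeded from below. -/
lemma exists_small (ρ : Measure ℝ≥0∞) [IsProbabilityMeasure ρ] (h0 : ρ {0} = 0) (ε : ℝ≥0∞)
    (hε : 0 < ε) : ∃ s : ℝ≥0∞, 0 < s ∧ ρ (Iic s) ≤ ε := by
  have hanti : Antitone (fun n : ℕ => Iic ((n : ℝ≥0∞)⁻¹)) := by
    intro a b hab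
    refine Iic_subset_Iic.2 (ENNReal.inv_le_inv.2 ?_)
    exact_mod_cast hab
  have hlim := tendsto_measure_iInter_atTop (μ := ρ) (s := fun n : ℕ => Iic ((n : ℝ≥0∞)⁻¹))
    (fun n => measurableSet_Iic.nullMeasurableSet) hanti ⟨0, measure_ne_top _ _⟩
  have hinter : ⋂ n : ℕ, Iic ((n : ℝ≥0∞)⁻¹) = {0} := by
    ext y
    simp only [Set.mem_iInter, Set.mem_Iic, Set.mem_singleton_iff]
    constructor
    · intro h
      refine le_antisymm ?_ zero_le
      refine ge_of_tendsto ENNReal.tendsto_inv_nat_nhds_zero (Eventually.of_forall h)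
    · rintro rfl n
      exact zero_le
  rw [hinter, h0] at hlim
  obtain ⟨n, hn⟩ := (hlim.eventually (gt_mem_nhds hε)).exists
  exact ⟨(n : ℝ≥0∞)⁻¹, by simp, hn.le⟩

/-- The key probabilistic statement: for a suitable arrangement `g` of the laws, almost surely
every individual `u` has a child whose total waiting time is so small that this child has
infinitely many children strictly before `u` has. -/
lemma key (h0 : ∀ k, ρ k {0} = 0) (hpos : ∀ k (δ : ℝ≥0∞), 0 < δ → 0 < ρ k (Iic δ))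
    (htail : ∀ k, ρ k (Ioi (2⁻¹ ^ k)) ≤ 2⁻¹ ^ (k + 3)) :
    ∃ g : ℕ → ℕ, TwoToOne g ∧ ∀ {Ω : Type} [MeasurableSpace Ω] (P : Measure Ω)
      (X : List ℕ → Ω → ℕ → ℝ≥0∞), IsIIDFamily (Measure.infinitePi fun j => ρ (g j)) P X →
      ∀ᵐ ω ∂P, ∀ u, ∃ i n, i < n ∧ ∑' k, X (i :: u) ω k < X u ω n := by
  choose s hs0 hs using fun k => exists_small (ρ k) (h0 k) (2⁻¹ ^ k) (by
    exact ENNReal.pow_pos (by simp) k)
  choose r hr0 hr using fun k => lower ρ hpos htail (s k) (hs0 k)
  have hM : ∀ k, ∃ M : ℕ, (1 - r k) ^ M ≤ (2⁻¹ : ℝ≥0∞) ^ k := by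
    intro k
    have h1 : (1 - r k) < 1 := ENNReal.sub_lt_self (by simp) (by simp) (hr0 k).ne'
    have h2 := ENNReal.tendsto_pow_atTop_nhds_zero_of_lt_one h1
    have h3 : (0 : ℝ≥0∞) < 2⁻¹ ^ k := ENNReal.pow_pos (by simp) k
    obtain ⟨M, hM⟩ := (h2.eventually (gt_mem_nhds h3)).exists
    exact ⟨M, hM.le⟩
  choose M hM using hM
  obtain ⟨g, m, hg, hMm, hgm⟩ := exists_index M
  refine ⟨g, hg, ?_⟩
  intro Ω _ P X hX
  obtain ⟨hind, hlaw⟩ := hX
  have hprob : IsProbabilityMeasure P := hind.isProbabilityMeasure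
  rw [ae_all_iff]
  intro u
  -- the bad events
  have hmeas_tsum : Measurable fun x : ℕ → ℝ≥0∞ => ∑' k, x k :=
    Measurable.tsum fun k => measurable_pi_apply k
  have hbad1 : ∀ n, P {ω | X u ω (m n) ≤ s n} ≤ 2⁻¹ ^ n := by
    intro n
    have h1 : P {ω | X u ω (m n) ≤ s n} =
        (P.map (X u)) ((fun x : ℕ → ℝ≥0∞ => x (m n)) ⁻¹' (Iic (s n))) := by
      rw [Measure.map_apply (hlaw u).1 (measurable_pi_apply _ measurableSet_Iic)]
      rfl
    rw [h1, (hlaw u).2, ← Measure.map_apply (measurable_pi_apply _) measurableSet_Iic,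
      Measure.infinitePi_map_eval, hgm]
    exact hs n
  have hbad2 : ∀ n, P {ω | ∀ i < m n, s n ≤ ∑' k, X (i :: u) ω k} ≤ 2⁻¹ ^ n := by
    intro n
    have hset : {ω | ∀ i < m n, s n ≤ ∑' k, X (i :: u) ω k} =
        ⋂ v ∈ (Finset.range (m n)).map ⟨fun i => i :: u, fun a b h => by simpa using h⟩,
          X v ⁻¹' {x | s n ≤ ∑' k, x k} := by
      ext ω
      simp only [Set.mem_iInter, Finset.mem_map, Finset.mem_range]
      constructor
      · rintro h v ⟨i, hi, rfl⟩
        exact h i hi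
      · intro h i hi
        exact h _ ⟨i, hi, rfl⟩
    rw [hset, hind.measure_inter_preimage_eq_mul _ (sets := fun _ => {x | s n ≤ ∑' k, x k})
      (fun v _ => measurableSet_le measurable_const hmeas_tsum)]
    have hone : ∀ v, P (X v ⁻¹' {x | s n ≤ ∑' k, x k}) ≤ 1 - r n := by
      intro v
      rw [← Measure.map_apply (hlaw v).1 (measurableSet_le measurable_const hmeas_tsum),
        (hlaw v).2]
      have hcompl : {x : ℕ → ℝ≥0∞ | s n ≤ ∑' k, x k} = {x : ℕ → ℝ≥0∞ | ∑' k, x k < s n}ᶜ := by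
        ext x
        simp
      rw [hcompl, prob_compl_eq_one_sub (measurableSet_lt hmeas_tsum measurable_const)]
      exact tsub_le_tsub_left (hr n g hg) 1
    calc ∏ v ∈ (Finset.range (m n)).map ⟨fun i => i :: u, fun a b h => by simpa using h⟩,
          P (X v ⁻¹' {x | s n ≤ ∑' k, x k})
        ≤ ∏ v ∈ (Finset.range (m n)).map ⟨fun i => i :: u, fun a b h => by simpa using h⟩,
          (1 - r n) := Finset.prod_le_prod' fun v _ => hone v
      _ = (1 - r n) ^ (m n) := by rw [Finset.prod_const]; simp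
      _ ≤ (1 - r n) ^ (M n) := pow_le_pow_right_of_le_one' tsub_le_self (hMm n)
      _ ≤ _ := hM n
  have hbad : ∀ n, P {ω | ¬ ∃ i n, i < n ∧ ∑' k, X (i :: u) ω k < X u ω n} ≤
      2 * 2⁻¹ ^ n := by
    intro n
    calc P {ω | ¬ ∃ i n, i < n ∧ ∑' k, X (i :: u) ω k < X u ω n}
        ≤ P ({ω | X u ω (m n) ≤ s n} ∪ {ω | ∀ i < m n, s n ≤ ∑' k, X (i :: u) ω k}) := by
          refine measure_mono ?_
          intro ω hω
          by_contra hcon
          simp only [Set.mem_union, Set.mem_ofPred_eq, not_or, not_le, not_forall] at hcon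
          obtain ⟨h1, i, hi, h2⟩ := hcon
          exact hω ⟨i, m n, hi, lt_trans h2 h1⟩
      _ ≤ 2⁻¹ ^ n + 2⁻¹ ^ n := (measure_union_le _ _).trans (add_le_add (hbad1 n) (hbad2 n))
      _ = _ := by rw [two_mul]
  rw [ae_iff]
  refine le_antisymm ?_ zero_le
  have hlim : Tendsto (fun n : ℕ => 2 * (2⁻¹ : ℝ≥0∞) ^ n) atTop (𝓝 (2 * 0)) :=
    ENNReal.Tendsto.const_mul
      (ENNReal.tendsto_pow_atTop_nhds_zero_of_lt_one (by simp)) (Or.inr (by simp))
  rw [mul_zero] at hlim
  exact ge_of_tendsto hlim (Eventually.of_forall hbad)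

end law

/-- If `i < n` and the total waiting time of the child `i :: u` is less than the waiting time
`x u n`, then this child has infinitely many children strictly before `u` has. -/
lemma child_first {x : List ℕ → ℕ → ℝ≥0∞} (hfin : ∀ u, birth x u ≠ ∞) {u : List ℕ} {i n : ℕ}
    (hin : i < n) (h : ∑' k, x (i :: u) k < x u n) :
    birth x (i :: u) + ∑' k, x (i :: u) k < birth x u + ∑' k, x u k := by
  calc birth x (i :: u) + ∑' k, x (i :: u) k < birth x (i :: u) + x u n :=
        ENNReal.add_lt_add_left (hfin _) h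
    _ = birth x u + (∑ j ∈ Finset.range (i + 1), x u j + x u n) := by
        rw [birth_cons, add_assoc]
    _ ≤ birth x u + ∑' k, x u k := by
        gcongr
        have hnot : n ∉ Finset.range (i + 1) := by simp; omega
        rw [add_comm, ← Finset.sum_insert hnot]
        exact ENNReal.sum_le_tsum _

lemma birth_ne_top {x : List ℕ → ℕ → ℝ≥0∞} (hx : ∀ u j, x u j ≠ ∞) (u : List ℕ) :
    birth x u ≠ ∞ := by
  induction u with
  | nil => simp [birth]
  | cons i v ih =>
    rw [birth_cons]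
    exact ENNReal.add_ne_top.2 ⟨ih, ENNReal.sum_ne_top.2 fun j _ => hx v j⟩

section exponential

/-- The rate at level `k`. -/
noncomputable def rate (k : ℕ) : ℝ := (k + 3) * 2 ^ k

lemma rate_pos (k : ℕ) : 0 < rate k := by unfold rate; positivity

/-- The exponential law of rate `rate k`, on the extended half line. -/
noncomputable def law (k : ℕ) : Measure ℝ≥0∞ := (expMeasure (rate k)).map ENNReal.ofReal

instance (k : ℕ) : IsProbabilityMeasure (law k) := by
  have := isProbabilityMeasure_expMeasure (rate_pos k)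
  exact Measure.isProbabilityMeasure_map ENNReal.measurable_ofReal.aemeasurable

lemma expMeasure_Iic (k : ℕ) (x : ℝ) (hx : 0 ≤ x) :
    expMeasure (rate k) (Iic x) = ENNReal.ofReal (1 - Real.exp (-(rate k * x))) := by
  have := isProbabilityMeasure_expMeasure (rate_pos k)
  rw [← ofReal_cdf, cdf_expMeasure_eq (rate_pos k), if_pos hx]

lemma law_zero (k : ℕ) : law k {0} = 0 := by
  rw [law, Measure.map_apply ENNReal.measurable_ofReal (measurableSet_singleton _)]
  have : ENNReal.ofReal ⁻¹' {0} = Iic (0 : ℝ) := by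
    ext y
    simp
  rw [this, expMeasure_Iic k 0 le_rfl]
  simp

lemma law_top (k : ℕ) : law k {∞} = 0 := by
  rw [law, Measure.map_apply ENNReal.measurable_ofReal (measurableSet_singleton _)]
  have : ENNReal.ofReal ⁻¹' {∞} = ∅ := by
    ext y
    simp
  rw [this, measure_empty]

lemma law_pos (k : ℕ) (δ : ℝ≥0∞) (hδ : 0 < δ) : 0 < law k (Iic δ) := by
  obtain ⟨c, hc0, hcδ⟩ := ENNReal.lt_iff_exists_nnreal_btwn.1 hδ
  have hc : (0 : ℝ) < c := by exact_mod_cast hc0
  rw [law, Measure.map_apply ENNReal.measurable_ofReal measurableSet_Iic]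
  refine lt_of_lt_of_le ?_ (measure_mono (μ := expMeasure (rate k)) (s := Iic (c : ℝ)) ?_)
  · rw [expMeasure_Iic k c hc.le, ENNReal.ofReal_pos, sub_pos, Real.exp_lt_one_iff]
    have := mul_pos (rate_pos k) hc
    linarith
  · intro y hy
    have h1 : ENNReal.ofReal y ≤ c := by
      rw [← ENNReal.ofReal_coe_nnreal]
      exact ENNReal.ofReal_le_ofReal hy
    exact h1.trans hcδ.le

lemma law_tail (k : ℕ) : law k (Ioi (2⁻¹ ^ k)) ≤ 2⁻¹ ^ (k + 3) := by
  have := isProbabilityMeasure_expMeasure (rate_pos k)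
  have h2 : ENNReal.ofReal ((2 : ℝ)⁻¹ ^ k) = (2⁻¹ : ℝ≥0∞) ^ k := by
    rw [ENNReal.ofReal_pow (by norm_num), ENNReal.ofReal_inv_of_pos (by norm_num)]
    simp
  rw [law, Measure.map_apply ENNReal.measurable_ofReal measurableSet_Ioi]
  have hset : ENNReal.ofReal ⁻¹' (Ioi (2⁻¹ ^ k)) = (Iic ((2 : ℝ)⁻¹ ^ k))ᶜ := by
    ext y
    simp only [Set.mem_preimage, Set.mem_Ioi, Set.mem_compl_iff, Set.mem_Iic, not_le, ← h2]
    rw [ENNReal.ofReal_lt_ofReal_iff_of_nonneg (by positivity)]
  rw [hset, prob_compl_eq_one_sub measurableSet_Iic, expMeasure_Iic k _ (by positivity)]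
  have hr : rate k * (2 : ℝ)⁻¹ ^ k = (k + 3 : ℝ) := by
    unfold rate
    rw [mul_assoc, ← mul_pow]
    norm_num
  rw [hr, ← ENNReal.ofReal_one, ← ENNReal.ofReal_sub _ (by
    rw [sub_nonneg, Real.exp_le_one_iff]
    have : (0 : ℝ) ≤ k := Nat.cast_nonneg k
    linarith)]
  have h3 : (2⁻¹ : ℝ≥0∞) ^ (k + 3) = ENNReal.ofReal ((2 : ℝ)⁻¹ ^ (k + 3)) := by
    rw [ENNReal.ofReal_pow (by norm_num), ENNReal.ofReal_inv_of_pos (by norm_num)]
    simp
  rw [h3]
  refine ENNReal.ofReal_le_ofReal ?_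
  have h4 : Real.exp (-((k : ℝ) + 3)) = (Real.exp 1)⁻¹ ^ (k + 3) := by
    rw [← Real.exp_neg, ← Real.exp_nat_mul]
    push_cast
    ring_nf
  rw [sub_sub_cancel, h4]
  refine pow_le_pow_left₀ (by positivity) ?_ _
  refine inv_anti₀ (by norm_num) ?_
  have := Real.add_one_le_exp (1 : ℝ)
  linarith

/-- Independent waiting times with laws `law (g j)` have an almost surely finite sum. -/
lemma ae_tsum_lt_top {g : ℕ → ℕ} (hg : TwoToOne g) :
    ∀ᵐ x ∂(Measure.infinitePi fun j => law (g j)),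
      (∀ j, 0 < x j ∧ x j < ∞) ∧ ∑' j, x j < ∞ := by
  set μ := Measure.infinitePi fun j => law (g j) with hμ
  have heval : ∀ j (A : Set ℝ≥0∞), MeasurableSet A → μ {x | x j ∈ A} = law (g j) A := by
    intro j A hA
    have : μ {x | x j ∈ A} = μ ((fun x : ℕ → ℝ≥0∞ => x j) ⁻¹' A) := rfl
    rw [this, ← Measure.map_apply (measurable_pi_apply j) hA, hμ]
    exact congrArg (fun m : Measure ℝ≥0∞ => m A)
      (Measure.infinitePi_map_eval (μ := fun j => law (g j)) j)
  have h1 : ∀ᵐ x ∂μ, ∀ j, 0 < x j ∧ x j < ∞ := by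
    rw [ae_all_iff]
    intro j
    have h0 : ∀ᵐ x ∂μ, x j ∉ ({0} : Set ℝ≥0∞) := by
      rw [ae_iff]
      simp only [not_not]
      rw [heval j {0} (measurableSet_singleton _), law_zero]
    have htop : ∀ᵐ x ∂μ, x j ∉ ({∞} : Set ℝ≥0∞) := by
      rw [ae_iff]
      simp only [not_not]
      rw [heval j {∞} (measurableSet_singleton _), law_top]
    filter_upwards [h0, htop] with x hx0 hxt
    exact ⟨pos_iff_ne_zero.2 hx0, lt_top_iff_ne_top.2 hxt⟩
  have h2 : ∀ᵐ x ∂μ, ∀ᶠ j in atTop, x ∉ {x : ℕ → ℝ≥0∞ | x j ∈ Ioi ((2⁻¹ : ℝ≥0∞) ^ (g j))} := by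
    refine ae_eventually_notMem ?_
    have h3 : ∑' j, μ {x : ℕ → ℝ≥0∞ | x j ∈ Ioi ((2⁻¹ : ℝ≥0∞) ^ (g j))} ≤
        2 * ∑' k, (2⁻¹ : ℝ≥0∞) ^ (k + 3) := by
      refine le_trans (ENNReal.tsum_le_tsum fun j => ?_) (hg fun k => 2⁻¹ ^ (k + 3))
      rw [heval j _ measurableSet_Ioi]
      exact law_tail _
    refine (lt_of_le_of_lt h3 ?_).ne
    simp_rw [pow_add]
    rw [ENNReal.tsum_mul_right, ENNReal.tsum_geometric_two]
    exact ENNReal.mul_lt_top (by simp) (ENNReal.mul_lt_top (by simp) (by simp))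
  filter_upwards [h1, h2] with x hx1 hx2
  refine ⟨hx1, ?_⟩
  obtain ⟨N, hN⟩ := eventually_atTop.1 hx2
  have hpt : ∀ j, x j ≤ (if j < N then x j else 0) + 2⁻¹ ^ (g j) := by
    intro j
    by_cases hj : j < N
    · simp only [hj, if_true]
      exact le_self_add
    · simp only [hj, if_false, zero_add]
      exact not_lt.1 (hN j (not_lt.1 hj))
  calc ∑' j, x j ≤ ∑' j, ((if j < N then x j else 0) + 2⁻¹ ^ (g j)) := ENNReal.tsum_le_tsum hpt
    _ = ∑' j, (if j < N then x j else 0) + ∑' j, 2⁻¹ ^ (g j) := ENNReal.tsum_add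
    _ < ∞ := by
      refine ENNReal.add_lt_top.2 ⟨?_, ?_⟩
      · rw [tsum_eq_sum (s := Finset.range N) (by
          intro b hb
          have : ¬ b < N := by simpa using hb
          simp [this])]
        refine ENNReal.sum_lt_top.2 fun j _ => ?_
        split_ifs
        · exact (hx1 j).2
        · simp
      · refine lt_of_le_of_lt (hg fun k => 2⁻¹ ^ k) ?_
        rw [ENNReal.tsum_geometric_two]
        exact ENNReal.mul_lt_top (by simp) (by simp)

end exponential

/-- **Answer to Q1: no.** There is a law `μ` of the sequence of waiting times `X(1), X(2), ...`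
whose entries are independent, positive and finite (in fact exponentially distributed with
summable means, so that their sum is almost surely finite), such that the Crump-Mode-Jagers
process is explosive, survives almost surely, and almost surely no individual at all has infinitely
many children in the tree of the individuals born before the explosion time. -/
theorem result :
    ∃ μ : Measure (ℕ → ℝ≥0∞),
      iIndepFun (fun (j : ℕ) (x : ℕ → ℝ≥0∞) => x j) μ ∧
      (∃ f : ℕ → ℝ, (∀ j, 0 < f j) ∧ Summable (fun j => (f j)⁻¹) ∧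
        ∀ j, μ.map (fun x => x j) = (expMeasure (f j)).map ENNReal.ofReal) ∧
      (∀ᵐ x ∂μ, (∀ j, 0 < x j ∧ x j < ∞) ∧ ∑' j, x j < ∞) ∧
      (∃ (Ω : Type) (_ : MeasurableSpace Ω) (P : Measure Ω) (X : List ℕ → Ω → ℕ → ℝ≥0∞),
        IsIIDFamily μ P X) ∧
      ∀ (Ω : Type) [MeasurableSpace Ω] (P : Measure Ω) (X : List ℕ → Ω → ℕ → ℝ≥0∞),
        IsIIDFamily μ P X →
          IsProbabilityMeasure P ∧ Explosive P X ∧
            ∀ᵐ ω ∂P, (tree fun u => X u ω).Infinite ∧
              ∀ u, ¬ HasInfiniteDegree (fun u => X u ω) u := by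
  obtain ⟨g, hg, hmain⟩ := key law law_zero law_pos law_tail
  refine ⟨Measure.infinitePi fun j => law (g j), ?_, ⟨fun j => rate (g j), ?_, ?_, ?_⟩,
    ae_tsum_lt_top hg, ?_, ?_⟩
  · exact iIndepFun_infinitePi (P := fun j => law (g j)) (X := fun _ y => y)
      (fun _ => measurable_id)
  · exact fun j => rate_pos _
  · have h1 : ∑' j, ENNReal.ofReal ((rate (g j))⁻¹) ≠ ∞ := by
      have h2 := hg fun k => ENNReal.ofReal ((rate k)⁻¹)
      refine (lt_of_le_of_lt h2 ?_).ne
      refine ENNReal.mul_lt_top (by simp) ?_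
      calc ∑' k, ENNReal.ofReal ((rate k)⁻¹) ≤ ∑' k, (2⁻¹ : ℝ≥0∞) ^ k := by
            refine ENNReal.tsum_le_tsum fun k => ?_
            have h3 : (2⁻¹ : ℝ≥0∞) ^ k = ENNReal.ofReal ((2 : ℝ)⁻¹ ^ k) := by
              rw [ENNReal.ofReal_pow (by norm_num), ENNReal.ofReal_inv_of_pos (by norm_num)]
              simp
            rw [h3]
            refine ENNReal.ofReal_le_ofReal ?_
            unfold rate
            rw [mul_inv, ← inv_pow]
            have h4 : ((k : ℝ) + 3)⁻¹ ≤ 1 := by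
              refine inv_le_one_of_one_le₀ ?_
              have : (0 : ℝ) ≤ k := Nat.cast_nonneg k
              linarith
            calc ((k : ℝ) + 3)⁻¹ * (2 : ℝ)⁻¹ ^ k ≤ 1 * (2 : ℝ)⁻¹ ^ k := by gcongr
              _ = _ := one_mul _
        _ < ∞ := by rw [ENNReal.tsum_geometric_two]; simp
    have h5 := ENNReal.summable_toReal h1
    refine h5.congr fun j => ?_
    rw [ENNReal.toReal_ofReal]
    exact (inv_pos.2 (rate_pos _)).le
  · intro j
    exact Measure.infinitePi_map_eval (μ := fun j => law (g j)) j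
  · refine ⟨List ℕ → (ℕ → ℝ≥0∞), inferInstance,
      Measure.infinitePi fun _ => Measure.infinitePi fun j => law (g j), fun u ω => ω u, ?_, ?_⟩
    · exact iIndepFun_infinitePi
        (P := fun _ : List ℕ => Measure.infinitePi fun j => law (g j)) (X := fun _ y => y)
        (fun _ => measurable_id)
    · intro u
      exact ⟨measurable_pi_apply u, Measure.infinitePi_map_eval
        (μ := fun _ : List ℕ => Measure.infinitePi fun j => law (g j)) u⟩
  · intro Ω _ P X hX
    have hprob : IsProbabilityMeasure P := hX.1.isProbabilityMeasure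
    have hrow : ∀ᵐ ω ∂P, ∀ u, (∀ j, 0 < X u ω j ∧ X u ω j < ∞) ∧ ∑' j, X u ω j < ∞ := by
      rw [ae_all_iff]
      intro u
      have h := ae_tsum_lt_top hg
      rw [← (hX.2 u).2] at h
      exact ae_of_ae_map (hX.2 u).1.aemeasurable h
    have hall : ∀ᵐ ω ∂P, explosionTime (fun u => X u ω) < ∞ ∧
        (tree fun u => X u ω).Infinite ∧ ∀ u, ¬ HasInfiniteDegree (fun u => X u ω) u := by
      filter_upwards [hrow, hmain P X hX] with ω h1 h2
      have hfin : ∀ u, birth (fun u => X u ω) u ≠ ∞ :=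
        birth_ne_top fun u j => ((h1 u).1 j).2.ne
      have hτ : ∀ u, explosionTime (fun u => X u ω) <
          birth (fun u => X u ω) u + ∑' k, X u ω k := by
        intro u
        obtain ⟨i, n, hin, h3⟩ := h2 u
        have h4 := child_first (x := fun u => X u ω) hfin hin h3
        exact lt_of_le_of_lt (explosionTime_le (x := fun u => X u ω) (i :: u) h4.ne_top) h4
      have hτ' : explosionTime (fun u => X u ω) < ∞ := lt_of_lt_of_le (hτ []) le_top
      exact ⟨hτ', tree_infinite (fun u j => ((h1 u).1 j).1) hτ',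
        fun u => not_hasInfiniteDegree u (hτ u)⟩
    refine ⟨hprob, ⟨?_, ?_⟩, ?_⟩
    · have h1 : P {ω | (tree fun u => X u ω).Infinite} = 1 := by
        have h2 : {ω | (tree fun u => X u ω).Infinite} =ᵐ[P] Set.univ := by
          refine eventuallyEq_univ.2 ?_
          filter_upwards [hall] with ω hω using hω.2.1
        rw [measure_congr h2, measure_univ]
      rw [h1]
      exact one_pos
    · filter_upwards [hall] with ω hω _ using hω.1
    · filter_upwards [hall] with ω hω using hω.2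

end Pool.H23.MV.NoStar
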